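import Pool.Agent.R823.FX.Final

/-!
MP_9085a3_al, Q1 for abelian groups: a finite abelian group has property (F) if and only if it has
a fixed-point-free automorphism, if and only if no cyclic group of order `2^k`, `k ≥ 1`, occurs
exactly once in its decomposition into cyclic groups of prime power order.
-/

set_option autoImplicit false

namespace Pool.Agent.Results.MP_9085a3_al.AbelianCase

open Pool.Agent.R823.FX

universe u

/-- `G` abelian, `Additive G ≅ ∏ ZMod (p i ^ e i)`: property (F) holds iff no `2 ^ k` with `k > 0`
is attained exactly once by `p i ^ e i`, iff `G` has a fixed-point-free automorphism. -/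
theorem result (ι : Type) [Fintype ι] (p e : ι → ℕ) (hp : ∀ i, (p i).Prime)
    (he : ∀ i, 0 < e i) (G : Type u) [CommGroup G]
    (φ : Additive G ≃+ ∀ i, ZMod (p i ^ e i)) :
    (PropF G ↔ ∀ k, 0 < k → Nat.card {i // p i ^ e i = 2 ^ k} ≠ 1) ∧
    (PropF G ↔ ∃ α : G ≃* G, ∀ g, α g = g → g = 1) :=
  main ι p e hp he G φ

end Pool.Agent.Results.MP_9085a3_al.AbelianCase
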